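import Pool.Agent.Helper52.PG.Goals

/-!
# Regions of the diagram `fill` (MP_2b0227_gt, packet PH-FACFILL)
-/

set_option autoImplicit false
set_option linter.unusedSectionVars false

namespace Pool.Agent.Helper81.PG

open Pool.Agent.Helper36.SC Pool.Agent.Helper37.Arb Pool.Agent.Helper52.C2 Pool.Agent.Helper99.PG
open Pool.Agent.Helper52.PG AltDiagram

section fillD

variable {V : Type} [DecidableEq V] [Fintype V] (S : Skel V) (M : V → Marked)

/-- the filled diagram -/
abbrev fd : Marked := fill S.D S.l S.r M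

/-- inclusion of the crossings of `M v` -/
def ic (v : V) (y : (M v).V) : (fd S M).V := ⟨v, y⟩

/-- inclusion of the corners of `M v` -/
def em (v : V) (c : (M v).V × Corner) : (fd S M).V × Corner := (⟨v, c.1⟩, c.2)

theorem em_surj (c : (fd S M).V × Corner) : ∃ v b, c = em S M v b :=
  ⟨c.1.1, (c.1.2, c.2), rfl⟩

theorem over_in (v : V) (y : (M v).V) (hy : y ≠ (M v).r) :
    (fd S M).D.overNext (ic S M v y) = ic S M v ((M v).D.overNext y) := by
  show (Equiv.sigmaCongrRight fun v => (M v).D.overNext)
    (mv (Equiv.removeNone S.D.overNext) (fun v => (M v).r) ⟨v, y⟩) = _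
  rw [mv_ne _ _ _ _ hy]
  rfl

theorem under_in (v : V) (y : (M v).V) (hy : y ≠ (M v).l) :
    (fd S M).D.underNext (ic S M v y) = ic S M v ((M v).D.underNext y) := by
  show (Equiv.sigmaCongrRight fun v => (M v).D.underNext)
    (mv (Equiv.removeNone S.D.underNext) (fun v => (M v).l) ⟨v, y⟩) = _
  rw [mv_ne _ _ _ _ hy]
  rfl

theorem over_rem (v w : V) (h : Equiv.removeNone S.D.overNext v = w) :
    (fd S M).D.overNext (ic S M v (M v).r) = ic S M w ((M w).D.overNext (M w).r) := by
  show (Equiv.sigmaCongrRight fun v => (M v).D.overNext)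
    (mv (Equiv.removeNone S.D.overNext) (fun v => (M v).r) ⟨v, (M v).r⟩) = _
  rw [mv_mark, h]
  rfl

theorem under_rem (v w : V) (h : Equiv.removeNone S.D.underNext v = w) :
    (fd S M).D.underNext (ic S M v (M v).l) = ic S M w ((M w).D.underNext (M w).l) := by
  show (Equiv.sigmaCongrRight fun v => (M v).D.underNext)
    (mv (Equiv.removeNone S.D.underNext) (fun v => (M v).l) ⟨v, (M v).l⟩) = _
  rw [mv_mark, h]
  rfl

theorem over_mark (v w : V) (h : S.D.overNext (some v) = some w) :
    (fd S M).D.overNext (ic S M v (M v).r) = ic S M w ((M w).D.overNext (M w).r) := by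
  apply over_rem
  apply Option.some_injective
  rw [Equiv.removeNone_some _ ⟨w, h⟩, h]

theorem under_mark (v w : V) (h : S.D.underNext (some v) = some w) :
    (fd S M).D.underNext (ic S M v (M v).l) = ic S M w ((M w).D.underNext (M w).l) := by
  apply under_rem
  apply Option.some_injective
  rw [Equiv.removeNone_some _ ⟨w, h⟩, h]

theorem over_last (w : V) (h : S.D.overNext none = some w) :
    (fd S M).D.overNext (ic S M S.r (M S.r).r) = ic S M w ((M w).D.overNext (M w).r) := by
  apply over_rem
  apply Option.some_injective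
  rw [Equiv.removeNone_none _ S.hr, h]

theorem under_last (w : V) (h : S.D.underNext none = some w) :
    (fd S M).D.underNext (ic S M S.l (M S.l).l) = ic S M w ((M w).D.underNext (M w).l) := by
  apply under_rem
  apply Option.some_injective
  rw [Equiv.removeNone_none _ S.hl, h]

theorem over_none : ∃ w, S.D.overNext none = some w := by
  rcases h : S.D.overNext none with _ | w
  · have := S.D.overNext.injective (h.trans S.hr.symm)
    exact absurd this (by simp)
  · exact ⟨w, rfl⟩

theorem under_none : ∃ w, S.D.underNext none = some w := by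
  rcases h : S.D.underNext none with _ | w
  · have := S.D.underNext.injective (h.trans S.hl.symm)
    exact absurd this (by simp)
  · exact ⟨w, rfl⟩

theorem over_ne (v : V) (h : v ≠ S.r) : ∃ w, S.D.overNext (some v) = some w := by
  rcases h' : S.D.overNext (some v) with _ | w
  · exact absurd (Option.some_injective _ (S.D.overNext.injective (h'.trans S.hr.symm))) h
  · exact ⟨w, rfl⟩

theorem under_ne (v : V) (h : v ≠ S.l) : ∃ w, S.D.underNext (some v) = some w := by
  rcases h' : S.D.underNext (some v) with _ | w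
  · exact absurd (Option.some_injective _ (S.D.underNext.injective (h'.trans S.hl.symm))) h
  · exact ⟨w, rfl⟩

theorem ne_of_over {v w : V} (h : S.D.overNext (some v) = some w) : v ≠ S.r := by
  rintro rfl
  rw [S.hr] at h
  exact absurd h (by simp)

theorem ne_of_under {v w : V} (h : S.D.underNext (some v) = some w) : v ≠ S.l := by
  rintro rfl
  rw [S.hl] at h
  exact absurd h (by simp)

/-! corners -/

theorem em_oL (v : V) (y : (M v).V) : oL (fd S M).D (ic S M v y) = em S M v (oL (M v).D y) := rfl
theorem em_oR (v : V) (y : (M v).V) : oR (fd S M).D (ic S M v y) = em S M v (oR (M v).D y) := rfl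
theorem em_uL (v : V) (y : (M v).V) : uL (fd S M).D (ic S M v y) = em S M v (uL (M v).D y) := rfl
theorem em_uR (v : V) (y : (M v).V) : uR (fd S M).D (ic S M v y) = em S M v (uR (M v).D y) := rfl
theorem em_iL (v : V) (y : (M v).V) : iL (fd S M).D (ic S M v y) = em S M v (iL (M v).D y) := rfl
theorem em_iR (v : V) (y : (M v).V) : iR (fd S M).D (ic S M v y) = em S M v (iR (M v).D y) := rfl
theorem em_jL (v : V) (y : (M v).V) : jL (fd S M).D (ic S M v y) = em S M v (jL (M v).D y) := rfl
theorem em_jR (v : V) (y : (M v).V) : jR (fd S M).D (ic S M v y) = em S M v (jR (M v).D y) := rfl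

theorem ic_eq_r {v : V} {y : (M v).V} (h : ic S M v y = (fd S M).r) : v = S.r ∧ y ≍ (M S.r).r := by
  have h' : (⟨v, y⟩ : Σ v, (M v).V) = ⟨S.r, (M S.r).r⟩ := h
  exact Sigma.mk.inj_iff.1 h'

theorem ic_eq_l {v : V} {y : (M v).V} (h : ic S M v y = (fd S M).l) : v = S.l ∧ y ≍ (M S.l).l := by
  have h' : (⟨v, y⟩ : Σ v, (M v).V) = ⟨S.l, (M S.l).l⟩ := h
  exact Sigma.mk.inj_iff.1 h'

/-- steps inside `M v` -/
theorem opn_in (v : V) {c c' : (M v).V × Corner} (h : Opn true (M v).D (M v).l (M v).r c c') :
    Opn true (fd S M).D (fd S M).l (fd S M).r (em S M v c) (em S M v c') := by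
  cases h with
  | oL y hy =>
    have hr : y ≠ (M v).r := hy rfl
    have := Opn.oL (s := true) (D := (fd S M).D) (l := (fd S M).l) (r := (fd S M).r) (ic S M v y)
      (fun _ h => by
        obtain ⟨h1, h2⟩ := ic_eq_r S M h
        subst h1
        exact hr (eq_of_heq h2))
    rwa [over_in S M v y hr, em_oL, em_iL] at this
  | oR y hy =>
    have hr : y ≠ (M v).r := hy rfl
    have := Opn.oR (s := true) (D := (fd S M).D) (l := (fd S M).l) (r := (fd S M).r) (ic S M v y)
      (fun _ h => by
        obtain ⟨h1, h2⟩ := ic_eq_r S M h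
        subst h1
        exact hr (eq_of_heq h2))
    rwa [over_in S M v y hr, em_oR, em_iR] at this
  | uL y hy h2 =>
    have := Opn.uL (s := true) (D := (fd S M).D) (l := (fd S M).l) (r := (fd S M).r) (ic S M v y)
      (fun h => by
        obtain ⟨h1, h2⟩ := ic_eq_l S M h
        subst h1
        exact hy (eq_of_heq h2)) (by simp)
    rwa [under_in S M v y hy, em_uL, em_jL] at this
  | uR y hy h2 =>
    have := Opn.uR (s := true) (D := (fd S M).D) (l := (fd S M).l) (r := (fd S M).r) (ic S M v y)
      (fun h => by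
        obtain ⟨h1, h2⟩ := ic_eq_l S M h
        subst h1
        exact hy (eq_of_heq h2)) (by simp)
    rwa [under_in S M v y hy, em_uR, em_jR] at this

/-- steps between different `M v` -/
theorem opn_oL {v w : V} (h : S.D.overNext (some v) = some w) :
    Opn true (fd S M).D (fd S M).l (fd S M).r (em S M v (oL (M v).D (M v).r))
      (em S M w (iL (M w).D ((M w).D.overNext (M w).r))) := by
  have := Opn.oL (s := true) (D := (fd S M).D) (l := (fd S M).l) (r := (fd S M).r)
    (ic S M v (M v).r) (fun _ h' => ne_of_over S h (ic_eq_r S M h').1)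
  rwa [over_mark S M v w h, em_oL, em_iL] at this

theorem opn_oR {v w : V} (h : S.D.overNext (some v) = some w) :
    Opn true (fd S M).D (fd S M).l (fd S M).r (em S M v (oR (M v).D (M v).r))
      (em S M w (iR (M w).D ((M w).D.overNext (M w).r))) := by
  have := Opn.oR (s := true) (D := (fd S M).D) (l := (fd S M).l) (r := (fd S M).r)
    (ic S M v (M v).r) (fun _ h' => ne_of_over S h (ic_eq_r S M h').1)
  rwa [over_mark S M v w h, em_oR, em_iR] at this

theorem opn_uL {v w : V} (h : S.D.underNext (some v) = some w) :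
    Opn true (fd S M).D (fd S M).l (fd S M).r (em S M v (uL (M v).D (M v).l))
      (em S M w (jL (M w).D ((M w).D.underNext (M w).l))) := by
  have := Opn.uL (s := true) (D := (fd S M).D) (l := (fd S M).l) (r := (fd S M).r)
    (ic S M v (M v).l) (fun h' => ne_of_under S h (ic_eq_l S M h').1) (by simp)
  rwa [under_mark S M v w h, em_uL, em_jL] at this

theorem opn_uR {v w : V} (h : S.D.underNext (some v) = some w) :
    Opn true (fd S M).D (fd S M).l (fd S M).r (em S M v (uR (M v).D (M v).l))
      (em S M w (jR (M w).D ((M w).D.underNext (M w).l))) := by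
  have := Opn.uR (s := true) (D := (fd S M).D) (l := (fd S M).l) (r := (fd S M).r)
    (ic S M v (M v).l) (fun h' => ne_of_under S h (ic_eq_l S M h').1) (by simp)
  rwa [under_mark S M v w h, em_uR, em_jR] at this

/-- all steps -/
theorem opn_cases {c c' : (fd S M).V × Corner}
    (h : Opn true (fd S M).D (fd S M).l (fd S M).r c c') :
    (∃ v b b', Opn true (M v).D (M v).l (M v).r b b' ∧ c = em S M v b ∧ c' = em S M v b') ∨
    (∃ v w, S.D.overNext (some v) = some w ∧ c = em S M v (oL (M v).D (M v).r) ∧
      c' = em S M w (iL (M w).D ((M w).D.overNext (M w).r))) ∨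
    (∃ v w, S.D.overNext (some v) = some w ∧ c = em S M v (oR (M v).D (M v).r) ∧
      c' = em S M w (iR (M w).D ((M w).D.overNext (M w).r))) ∨
    (∃ v w, S.D.underNext (some v) = some w ∧ c = em S M v (uL (M v).D (M v).l) ∧
      c' = em S M w (jL (M w).D ((M w).D.underNext (M w).l))) ∨
    (∃ v w, S.D.underNext (some v) = some w ∧ c = em S M v (uR (M v).D (M v).l) ∧
      c' = em S M w (jR (M w).D ((M w).D.underNext (M w).l))) := by
  cases h with
  | oL x hx =>
    obtain ⟨v, y⟩ := x
    by_cases hy : y = (M v).r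
    · subst hy
      have hv : v ≠ S.r := by
        rintro rfl
        exact hx rfl rfl
      obtain ⟨w, hw⟩ := over_ne S v hv
      right; left
      exact ⟨v, w, hw, rfl, by
        rw [← em_iL, ← over_mark S M v w hw]
        rfl⟩
    · left
      refine ⟨v, _, _, Opn.oL y (fun _ => hy), rfl, ?_⟩
      rw [← em_iL, ← over_in S M v y hy]
      rfl
  | oR x hx =>
    obtain ⟨v, y⟩ := x
    by_cases hy : y = (M v).r
    · subst hy
      have hv : v ≠ S.r := by
        rintro rfl
        exact hx rfl rfl
      obtain ⟨w, hw⟩ := over_ne S v hv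
      right; right; left
      exact ⟨v, w, hw, rfl, by
        rw [← em_iR, ← over_mark S M v w hw]
        rfl⟩
    · left
      refine ⟨v, _, _, Opn.oR y (fun _ => hy), rfl, ?_⟩
      rw [← em_iR, ← over_in S M v y hy]
      rfl
  | uL x hx h2 =>
    obtain ⟨v, y⟩ := x
    by_cases hy : y = (M v).l
    · subst hy
      have hv : v ≠ S.l := by
        rintro rfl
        exact hx rfl
      obtain ⟨w, hw⟩ := under_ne S v hv
      right; right; right; left
      exact ⟨v, w, hw, rfl, by
        rw [← em_jL, ← under_mark S M v w hw]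
        rfl⟩
    · left
      refine ⟨v, _, _, Opn.uL y hy (by simp), rfl, ?_⟩
      rw [← em_jL, ← under_in S M v y hy]
      rfl
  | uR x hx h2 =>
    obtain ⟨v, y⟩ := x
    by_cases hy : y = (M v).l
    · subst hy
      have hv : v ≠ S.l := by
        rintro rfl
        exact hx rfl
      obtain ⟨w, hw⟩ := under_ne S v hv
      right; right; right; right
      exact ⟨v, w, hw, rfl, by
        rw [← em_jR, ← under_mark S M v w hw]
        rfl⟩
    · left
      refine ⟨v, _, _, Opn.uR y hy (by simp), rfl, ?_⟩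
      rw [← em_jR, ← under_in S M v y hy]
      rfl

/-! regions of the skeleton -/

theorem reg_over_front (x : Option V) :
    S.D.region (x, .front) = S.D.region (S.D.overNext x, .back) := by
  refine Quotient.sound (Relation.EqvGen.rel _ _ ?_)
  have := SameSide.overLeft (D := S.D) x
  rwa [S.pos, S.pos, if_pos rfl, if_pos rfl] at this

theorem reg_over_right (x : Option V) :
    S.D.region (x, .right) = S.D.region (S.D.overNext x, .right) := by
  refine Quotient.sound (Relation.EqvGen.rel _ _ ?_)
  have := SameSide.overRight (D := S.D) x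
  rwa [S.pos, S.pos, if_pos rfl, if_pos rfl] at this

theorem reg_under_left (x : Option V) :
    S.D.region (x, .left) = S.D.region (S.D.underNext x, .left) := by
  refine Quotient.sound (Relation.EqvGen.rel _ _ ?_)
  have := SameSide.underLeft (D := S.D) x
  rwa [S.pos, S.pos, if_pos rfl, if_pos rfl] at this

theorem reg_under_front (x : Option V) :
    S.D.region (x, .front) = S.D.region (S.D.underNext x, .back) := by
  refine Quotient.sound (Relation.EqvGen.rel _ _ ?_)
  have := SameSide.underRight (D := S.D) x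
  rwa [S.pos, S.pos, if_pos rfl, if_pos rfl] at this

end fillD

section labels

variable {V : Type} [DecidableEq V] [Fintype V] (S : Skel V) (M : V → Marked)
  {F : V → Type} (G : ∀ v, Faces true (M v).D (M v).l (M v).r (F v))

/-- labels -/
abbrev Lb : Type := S.D.Region ⊕ Σ v, {x : F v // x ≠ (G v).N ∧ x ≠ (G v).S ∧ x ≠ (G v).W ∧
  x ≠ (G v).E}

open Classical in
/-- labels of `M v` as labels of the filled diagram -/
noncomputable def jn (v : V) (x : F v) : Lb S M G :=
  if h : x ≠ (G v).N ∧ x ≠ (G v).S ∧ x ≠ (G v).W ∧ x ≠ (G v).E then .inr ⟨v, x, h⟩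
  else .inl (S.D.region (some v, if x = (G v).N then .front else if x = (G v).S then .back
    else if x = (G v).W then .left else .right))

theorem jn_N (v : V) : jn S M G v (G v).N = .inl (S.D.region (some v, .front)) := by
  rw [jn, dif_neg (by simp), if_pos rfl]

theorem jn_S (v : V) : jn S M G v (G v).S = .inl (S.D.region (some v, .back)) := by
  rw [jn, dif_neg (by simp), if_neg (G v).NS.symm, if_pos rfl]

theorem jn_W (v : V) : jn S M G v (G v).W = .inl (S.D.region (some v, .left)) := by
  rw [jn, dif_neg (by simp), if_neg (G v).NW.symm, if_neg (G v).SW.symm, if_pos rfl]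

theorem jn_E (v : V) : jn S M G v (G v).E = .inl (S.D.region (some v, .right)) := by
  rw [jn, dif_neg (by simp), if_neg (G v).NE.symm, if_neg (G v).SE.symm, if_neg (G v).WE.symm]

theorem jn_inr (v : V) (x : F v)
    (h : x ≠ (G v).N ∧ x ≠ (G v).S ∧ x ≠ (G v).W ∧ x ≠ (G v).E) :
    jn S M G v x = .inr ⟨v, x, h⟩ := by
  rw [jn, dif_pos h]

/-- the label of a corner -/
noncomputable def lab (c : (fd S M).V × Corner) : Lb S M G :=
  jn S M G c.1.1 ((G c.1.1).ρ (c.1.2, c.2))

theorem lab_em (v : V) (b : (M v).V × Corner) :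
    lab S M G (em S M v b) = jn S M G v ((G v).ρ b) := rfl

theorem lab_surj : Function.Surjective (lab S M G) := by
  have hin : ∀ v x, ∃ c, lab S M G c = jn S M G v x := by
    intro v x
    obtain ⟨b, hb⟩ := (G v).surj x
    exact ⟨em S M v b, by rw [lab_em, hb]⟩
  have hs : ∀ v k, ∃ c, lab S M G c = .inl (S.D.region (some v, k)) := by
    intro v k
    cases k
    · rw [← jn_W]; exact hin _ _
    · rw [← jn_E]; exact hin _ _
    · rw [← jn_N]; exact hin _ _
    · rw [← jn_S]; exact hin _ _
  rintro (R | ⟨v, x, hx⟩)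
  · obtain ⟨⟨o, k⟩, rfl⟩ := Quotient.exists_rep R
    rcases o with _ | v
    · cases k
      · obtain ⟨c, hc⟩ := hs S.l .left
        rw [reg_under_left, S.hl] at hc
        exact ⟨c, hc⟩
      · obtain ⟨c, hc⟩ := hs S.r .right
        rw [reg_over_right, S.hr] at hc
        exact ⟨c, hc⟩
      · obtain ⟨w, hw⟩ := over_none S
        obtain ⟨c, hc⟩ := hs w .back
        rw [← hw, ← reg_over_front] at hc
        exact ⟨c, hc⟩
      · obtain ⟨c, hc⟩ := hs S.l .front
        rw [reg_under_front, S.hl] at hc
        exact ⟨c, hc⟩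
    · exact hs v k
  · rw [← jn_inr S M G v x hx]
    exact hin _ _

theorem lab_sound (c c' : (fd S M).V × Corner)
    (h₀ : Opn true (fd S M).D (fd S M).l (fd S M).r c c') : lab S M G c = lab S M G c' := by
  rcases opn_cases S M h₀ with ⟨v, b, b', h, rfl, rfl⟩ | ⟨v, w, h, rfl, rfl⟩ | ⟨v, w, h, rfl, rfl⟩ |
    ⟨v, w, h, rfl, rfl⟩ | ⟨v, w, h, rfl, rfl⟩
  · rw [lab_em, lab_em, (G v).sound _ _ h]
  · rw [lab_em, lab_em, (G v).t1 rfl, (G w).t2 rfl, jn_N, jn_S, reg_over_front, h]
  · rw [lab_em, lab_em, (G v).t3 rfl, (G w).t4 rfl, jn_E, jn_E, reg_over_right, h]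
  · rw [lab_em, lab_em, (G v).l1, (G w).l2, jn_W, jn_W, reg_under_left, h]
  · rw [lab_em, lab_em, (G v).l3, (G w).l4, jn_N, jn_S, reg_under_front, h]

theorem card_four (v : V) :
    Nat.card {x : F v // x ≠ (G v).N ∧ x ≠ (G v).S ∧ x ≠ (G v).W ∧ x ≠ (G v).E} + 1 =
      Nat.card (M v).V := by
  classical
  have := (G v).fin
  have := Fintype.ofFinite (F v)
  have h0 := (G v).card
  simp only [Nat.card_eq_fintype_card] at h0 ⊢
  rw [Fintype.card_subtype]
  have h1 : (Finset.univ.filter fun x : F v => x ≠ (G v).N ∧ x ≠ (G v).S ∧ x ≠ (G v).W ∧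
      x ≠ (G v).E) = Finset.univ \ {(G v).N, (G v).S, (G v).W, (G v).E} := by
    ext x; simp
  rw [h1, Finset.card_sdiff_of_subset (Finset.subset_univ _)]
  have h3 : ({(G v).N, (G v).S, (G v).W, (G v).E} : Finset (F v)).card = 4 := by
    rw [Finset.card_insert_of_notMem, Finset.card_insert_of_notMem, Finset.card_insert_of_notMem,
      Finset.card_singleton]
    · simpa using (G v).WE
    · simpa using ⟨(G v).SW, (G v).SE⟩
    · simpa using ⟨(G v).NS, (G v).NW, (G v).NE⟩
  have h4 : 0 < Fintype.card (M v).V := Fintype.card_pos_iff.2 ⟨(M v).l⟩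
  rw [h3, Finset.card_univ, h0]
  omega

theorem fin_lab : Finite (Lb S M G) := by
  have h1 : Finite S.D.Region := by
    unfold AltDiagram.Region
    infer_instance
  have h2 : ∀ v, Finite (F v) := fun v => (G v).fin
  infer_instance

theorem card_lab : Nat.card (Lb S M G) = Nat.card (fd S M).V + 3 := by
  classical
  have h1 : Finite S.D.Region := by
    unfold AltDiagram.Region
    infer_instance
  have h2 : ∀ v, Finite (F v) := fun v => (G v).fin
  have h3 : Nat.card (fd S M).V = ∑ v, Nat.card (M v).V := by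
    show Nat.card (Σ v, (M v).V) = _
    exact Nat.card_sigma
  rw [Nat.card_sum, Nat.card_sigma, h3, S.planar, ← Finset.sum_congr rfl fun v _ => card_four M G v,
    Finset.sum_add_distrib]
  have h4 : Nat.card (Option V) = Nat.card V + 1 := Finite.card_option
  rw [h4]
  simp only [Finset.sum_const, Finset.card_univ, smul_eq_mul, mul_one, Nat.card_eq_fintype_card]
  omega

theorem eqv_em (v : V) {b b' : (M v).V × Corner}
    (h : Relation.EqvGen (Opn true (M v).D (M v).l (M v).r) b b') :
    Relation.EqvGen (Opn true (fd S M).D (fd S M).l (fd S M).r) (em S M v b) (em S M v b') :=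
  eqvGen_map (em S M v) (fun _ _ h => opn_in S M v h) h

theorem eqv_ic (v : V) {y y' : (M v).V}
    (h : Relation.EqvGen (fun y z => ∃ c c', Opn true (M v).D (M v).l (M v).r (y, c) (z, c')) y y') :
    Relation.EqvGen (fun y z : (fd S M).V => ∃ c c',
      Opn true (fd S M).D (fd S M).l (fd S M).r (y, c) (z, c')) (ic S M v y) (ic S M v y') :=
  eqvGen_map (ic S M v) (fun _ _ ⟨c, c', h⟩ => ⟨c, c', opn_in S M v h⟩) h

/-- a function that is constant on the classes of `Opn` is constant on labels -/
theorem fn_lab (hcut : ∀ n s w e : V → ℝ,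
    (∀ v v', S.D.overNext (some v) = some v' → e v = e v' ∧ n v = s v') →
    (∀ v v', S.D.underNext (some v) = some v' → w v = w v' ∧ n v = s v') →
    ∃ h : S.D.Region → ℝ, ∀ v, h (S.D.region (some v, .front)) = n v ∧
      h (S.D.region (some v, .back)) = s v ∧ h (S.D.region (some v, .left)) = w v ∧
      h (S.D.region (some v, .right)) = e v)
    (f : (fd S M).V × Corner → ℝ)
    (hf : ∀ c c', Relation.EqvGen (Opn true (fd S M).D (fd S M).l (fd S M).r) c c' → f c = f c')
    (c c' : (fd S M).V × Corner) (h : lab S M G c = lab S M G c') : f c = f c' := by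
  have hg : ∀ v, ∃ g : F v → ℝ, ∀ b, f (em S M v b) = g ((G v).ρ b) := by
    intro v
    refine ⟨fun x => f (em S M v ((G v).surj x).choose), fun b => ?_⟩
    apply hf
    apply eqv_em
    apply (G v).conn.1
    exact ((G v).surj ((G v).ρ b)).choose_spec.symm
  choose g hg using hg
  have hs : ∀ c c', Opn true (fd S M).D (fd S M).l (fd S M).r c c' → f c = f c' :=
    fun c c' h => hf c c' (.rel _ _ h)
  obtain ⟨k, hk⟩ := hcut (fun v => g v (G v).N) (fun v => g v (G v).S) (fun v => g v (G v).W)
    (fun v => g v (G v).E) (by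
      intro v w h
      have h1 := hs _ _ (opn_oR S M h)
      have h2 := hs _ _ (opn_oL S M h)
      rw [hg, hg, (G v).t3 rfl, (G w).t4 rfl] at h1
      rw [hg, hg, (G v).t1 rfl, (G w).t2 rfl] at h2
      exact ⟨h1, h2⟩) (by
      intro v w h
      have h1 := hs _ _ (opn_uL S M h)
      have h2 := hs _ _ (opn_uR S M h)
      rw [hg, hg, (G v).l1, (G w).l2] at h1
      rw [hg, hg, (G v).l3, (G w).l4] at h2
      exact ⟨h1, h2⟩)
  have key : ∀ v x, g v x = Sum.elim k (fun z => g z.1 z.2.1) (jn S M G v x) := by
    intro v x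
    by_cases h1 : x ≠ (G v).N ∧ x ≠ (G v).S ∧ x ≠ (G v).W ∧ x ≠ (G v).E
    · rw [jn_inr S M G v x h1]
      rfl
    · have h2 : x = (G v).N ∨ x = (G v).S ∨ x = (G v).W ∨ x = (G v).E := by
        by_contra h3
        push Not at h3
        exact h1 h3
      rcases h2 with rfl | rfl | rfl | rfl
      · rw [jn_N]; exact (hk v).1.symm
      · rw [jn_S]; exact (hk v).2.1.symm
      · rw [jn_W]; exact (hk v).2.2.1.symm
      · rw [jn_E]; exact (hk v).2.2.2.symm
  obtain ⟨v, b, rfl⟩ := em_surj S M c
  obtain ⟨v', b', rfl⟩ := em_surj S M c'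
  rw [lab_em, lab_em] at h
  rw [hg, hg, key, key, h]

include G in
/-- the filled diagram is connected -/
theorem conn_ic (hcut : GoalCutConn) (x y : (fd S M).V) :
    Relation.EqvGen (fun y z : (fd S M).V => ∃ c c',
      Opn true (fd S M).D (fd S M).l (fd S M).r (y, c) (z, c')) x y := by
  classical
  set R := Relation.EqvGen (fun y z : (fd S M).V => ∃ c c',
      Opn true (fd S M).D (fd S M).l (fd S M).r (y, c) (z, c')) with hR
  let p : (fd S M).V → ℝ := fun z => if R x z then 1 else 0
  have hp : ∀ z z', R z z' → p z = p z' := by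
    intro z z' h
    have : R x z ↔ R x z' := ⟨fun h1 => h1.trans _ _ _ h, fun h1 => h1.trans _ _ _ (h.symm _ _)⟩
    show (if R x z then (1 : ℝ) else 0) = if R x z' then 1 else 0
    simp only [this]
  have hin : ∀ v y, p (ic S M v y) = p (ic S M v (M v).l) := fun v y =>
    hp _ _ (eqv_ic S M v ((G v).conn.2 _ _))
  have hstep : ∀ v w b b', Opn true (fd S M).D (fd S M).l (fd S M).r (em S M v b) (em S M w b') →
      p (ic S M v (M v).l) = p (ic S M w (M w).l) := by
    intro v w b b' h
    rw [← hin v b.1, ← hin w b'.1]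
    exact hp _ _ (.rel _ _ ⟨b.2, b'.2, h⟩)
  have hc := hcut S (fun v => p (ic S M v (M v).l)) (fun v w h => hstep _ _ _ _ (opn_oL S M h))
    (fun v w h => hstep _ _ _ _ (opn_uL S M h))
  have hall : p x = p y := by
    obtain ⟨v, x⟩ := x
    obtain ⟨w, y⟩ := y
    exact ((hin v x).trans (hc v w)).trans (hin w y).symm
  have hx : p x = 1 := if_pos (.refl _)
  rw [hx] at hall
  by_contra hn
  have : p y = 0 := if_neg hn
  rw [this] at hall
  exact one_ne_zero hall

end labels

theorem facFill : GoalFacFill := by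
  intro hT hcut hconn V _ _ S M hM
  classical
  choose F hF using hM
  let G : ∀ v, Faces true (M v).D (M v).l (M v).r (F v) := fun v => (hF v).some
  have hty := (hT S.D S.pos).1
  obtain ⟨wo, hwo⟩ := over_none S
  obtain ⟨wu, hwu⟩ := under_none S
  refine ⟨Lb S M G, ⟨{
    ρ := lab S M G
    N := .inl (S.D.region (none, .back))
    S := .inl (S.D.region (none, .front))
    W := .inl (S.D.region (none, .left))
    E := .inl (S.D.region (none, .right))
    NS := fun h => S.cut (Sum.inl_injective h).symm
    NW := fun h => (hty none none).2.2.1 (Sum.inl_injective h).symm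
    NE := fun h => (hty none none).2.2.2.2 (Sum.inl_injective h).symm
    SW := fun h => (hty none none).2.1 (Sum.inl_injective h).symm
    SE := fun h => (hty none none).2.2.2.1 (Sum.inl_injective h).symm
    WE := fun h => (hty none none).1 (Sum.inl_injective h)
    fin := fin_lab S M G
    card := card_lab S M G
    surj := lab_surj S M G
    sound := lab_sound S M G
    conn := ⟨?_, fun v w => conn_ic S M G hconn v w⟩
    l1 := ?_
    l2 := ?_
    l3 := ?_
    l4 := ?_
    t1 := fun _ => ?_
    t2 := fun _ => ?_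
    t3 := fun _ => ?_
    t4 := fun _ => ?_
    f0 := by simp
    f1 := by simp
    f2 := by simp
    f3 := by simp
    f4 := by simp }⟩⟩
  · intro c c' h
    let f : (fd S M).V × Corner → ℝ := fun z =>
      if Relation.EqvGen (Opn true (fd S M).D (fd S M).l (fd S M).r) c z then 1 else 0
    have hf : ∀ z z', Relation.EqvGen (Opn true (fd S M).D (fd S M).l (fd S M).r) z z' →
        f z = f z' := by
      intro z z' h
      have : Relation.EqvGen (Opn true (fd S M).D (fd S M).l (fd S M).r) c z ↔
          Relation.EqvGen (Opn true (fd S M).D (fd S M).l (fd S M).r) c z' :=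
        ⟨fun h1 => h1.trans _ _ _ h, fun h1 => h1.trans _ _ _ (h.symm _ _)⟩
      show (if _ then (1 : ℝ) else 0) = if _ then 1 else 0
      simp only [this]
    have h1 := fn_lab S M G (fun n s w e h1 h2 => hcut S n s w e h1 h2) f hf c c' h
    have h2 : f c = 1 := if_pos (.refl _)
    rw [h2] at h1
    by_contra hn
    have h3 : f c' = 0 := if_neg hn
    rw [h3] at h1
    exact one_ne_zero h1
  · show lab S M G (em S M S.l (uL (M S.l).D (M S.l).l)) = _
    rw [lab_em, (G S.l).l1, jn_W, reg_under_left, S.hl]
  · show lab S M G (jL (fd S M).D ((fd S M).D.underNext (ic S M S.l (M S.l).l))) = _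
    rw [under_last S M wu hwu, em_jL, lab_em, (G wu).l2, jn_W, ← hwu, ← reg_under_left]
  · show lab S M G (em S M S.l (uR (M S.l).D (M S.l).l)) = _
    rw [lab_em, (G S.l).l3, jn_N, reg_under_front, S.hl]
  · show lab S M G (jR (fd S M).D ((fd S M).D.underNext (ic S M S.l (M S.l).l))) = _
    rw [under_last S M wu hwu, em_jR, lab_em, (G wu).l4, jn_S, ← hwu, ← reg_under_front]
  · show lab S M G (em S M S.r (oL (M S.r).D (M S.r).r)) = _
    rw [lab_em, (G S.r).t1 rfl, jn_N, reg_over_front, S.hr]
  · show lab S M G (iL (fd S M).D ((fd S M).D.overNext (ic S M S.r (M S.r).r))) = _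
    rw [over_last S M wo hwo, em_iL, lab_em, (G wo).t2 rfl, jn_S, ← hwo, ← reg_over_front]
  · show lab S M G (em S M S.r (oR (M S.r).D (M S.r).r)) = _
    rw [lab_em, (G S.r).t3 rfl, jn_E, reg_over_right, S.hr]
  · show lab S M G (iR (fd S M).D ((fd S M).D.overNext (ic S M S.r (M S.r).r))) = _
    rw [over_last S M wo hwo, em_iR, lab_em, (G wo).t4 rfl, jn_E, ← hwo, ← reg_over_right]

end Pool.Agent.Helper81.PG
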