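import Pool.Agent.Helper99.PG.Goals

/-!
Project C2, packet PG-PR: the response of the port system.
-/

namespace Pool.Agent.Helper81.PG

open Pool.Agent.Helper99.PG

theorem sum_ind {ι : Type} [Fintype ι] (o : Option ι) (y : ι → ℝ)
    (inst : ∀ j, Decidable (o = some j)) :
    ∑ j, (@ite ℝ (o = some j) (inst j) 1 0) * y j = o.elim 0 y := by
  classical
  cases o with
  | none => simp
  | some a =>
    rw [Finset.sum_eq_single a]
    · simp
    · intro b _ hb
      rw [if_neg (fun h => hb (Option.some.inj h).symm), zero_mul]
    · exact fun h => absurd (Finset.mem_univ a) h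

theorem elim_map {V : Type} (o : Option V) (d : Bool) (y : Port V → ℝ) :
    (o.map (fun w => (w, d))).elim 0 y = pv y d 0 o := by
  cases o <;> rfl

section mat

variable {V : Type} [Fintype V]

theorem mul_true (up dn : V → Option V) (x : ℝ) (b r : V → ℝ) (y : Port V → ℝ) (v : V) :
    (portMat up dn x b r).mulVec y (v, true) =
      y (v, true) + x * y (v, false) - pv y true 0 (up v) - x * pv y false 0 (dn v) := by
  have h1 := sum_ind ((some v : Option V).map (fun w => (w, true))) y
    (fun _ => Classical.propDecidable _)
  have h2 := sum_ind ((some v : Option V).map (fun w => (w, false))) y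
    (fun _ => Classical.propDecidable _)
  have h3 := sum_ind ((up v).map (fun w => (w, true))) y (fun _ => Classical.propDecidable _)
  have h4 := sum_ind ((dn v).map (fun w => (w, false))) y (fun _ => Classical.propDecidable _)
  rw [elim_map] at h1 h2 h3 h4
  change _ = y (v, true) at h1
  change _ = y (v, false) at h2
  rw [← h1, ← h2, ← h3, ← h4, Matrix.mulVec, dotProduct, Finset.mul_sum, Finset.mul_sum,
    ← Finset.sum_add_distrib, ← Finset.sum_sub_distrib, ← Finset.sum_sub_distrib]
  refine Finset.sum_congr rfl fun j _ => ?_
  simp only [portMat, if_true]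
  split_ifs <;> ring

theorem mul_false (up dn : V → Option V) (x : ℝ) (b r : V → ℝ) (y : Port V → ℝ) (v : V) :
    (portMat up dn x b r).mulVec y (v, false) =
      b v * (y (v, false) - pv y true 0 (up v)) + r v * (y (v, false) - pv y false 0 (dn v)) := by
  have h2 := sum_ind ((some v : Option V).map (fun w => (w, false))) y
    (fun _ => Classical.propDecidable _)
  have h3 := sum_ind ((up v).map (fun w => (w, true))) y (fun _ => Classical.propDecidable _)
  have h4 := sum_ind ((dn v).map (fun w => (w, false))) y (fun _ => Classical.propDecidable _)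
  rw [elim_map] at h2 h3 h4
  change _ = y (v, false) at h2
  rw [← h2, ← h3, ← h4, Matrix.mulVec, dotProduct, ← Finset.sum_sub_distrib,
    ← Finset.sum_sub_distrib, Finset.mul_sum, Finset.mul_sum, ← Finset.sum_add_distrib]
  refine Finset.sum_congr rfl fun j _ => ?_
  simp only [portMat, Bool.false_eq_true, if_false]
  split_ifs <;> ring

/-- The right side. -/
noncomputable def rhs (up dn : V → Option V) (x : ℝ) (b r : V → ℝ) (s t : ℝ) : Port V → ℝ :=
  fun i => if i.2 then (up i.1).elim s (fun _ => 0) + x * (dn i.1).elim t (fun _ => 0)
    else b i.1 * (up i.1).elim s (fun _ => 0) + r i.1 * (dn i.1).elim t (fun _ => 0)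

omit [Fintype V] in
theorem pv_split (y : Port V → ℝ) (d : Bool) (z : ℝ) (o : Option V) :
    pv y d z o = pv y d 0 o + o.elim z (fun _ => 0) := by
  cases o <;> simp [pv]

theorem portEq_of (up dn : V → Option V) (x : ℝ) (L R b : V → ℝ)
    (hL : ∀ v, L v - R v = (1 - x) * b v) (s t : ℝ) (y : Port V → ℝ)
    (h : (portMat up dn x b R).mulVec y = rhs up dn x b R s t) :
    PortEq up dn x L R b s t y := by
  intro v
  have h1 := congrFun h (v, true)
  have h2 := congrFun h (v, false)
  rw [mul_true] at h1
  rw [mul_false] at h2
  simp only [rhs, if_true, Bool.false_eq_true, if_false] at h1 h2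
  have h3 := hL v
  rw [pv_split y true s, pv_split y false t]
  generalize pv y true 0 (up v) = P at *
  generalize pv y false 0 (dn v) = Q at *
  generalize (up v).elim s (fun _ => 0) = S at *
  generalize (dn v).elim t (fun _ => 0) = T at *
  have h4 : L v = R v + (1 - x) * b v := by linarith
  have h5 : (b v + R v) * y (v, false) = b v * (P + S) + R v * (Q + T) := by linarith
  refine ⟨?_, h5⟩
  have h6 : y (v, true) = P + S + x * (Q + T) - x * y (v, false) := by linarith
  rw [h4, h6]
  have h7 : (b v + R v) * (P + S + x * (Q + T) - x * y (v, false)) =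
    (b v + R v) * (P + S + x * (Q + T)) - x * ((b v + R v) * y (v, false)) := by ring
  rw [h7, h5]
  ring

theorem sum_pv (e : Equiv.Perm (Option V)) (wl : V) (hw : e none = some wl) (y : Port V → ℝ)
    (d : Bool) (z : ℝ) :
    ∑ v, pv y d z (e (some v)) = z + ∑ v, y (v, d) - y (wl, d) := by
  have h1 : ∑ o, pv y d z (e o) = ∑ o, pv y d z o := Equiv.sum_comp e (fun o => pv y d z o)
  rw [Fintype.sum_option, Fintype.sum_option, hw] at h1
  have h2 : pv y d z (some wl) = y (wl, d) := rfl
  have h3 : pv y d z (none : Option V) = z := rfl
  have h4 : ∀ v : V, pv y d z (some v) = y (v, d) := fun _ => rfl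
  rw [h2, h3, Finset.sum_congr rfl fun v _ => h4 v] at h1
  linarith

end mat

/-- Packet PG-PR. -/
theorem portResp : GoalPortResp := by
  intro V _ _ H l r wl hl hr hwl x L R b hL hdet s t
  set M := portMat H.up (H.dn true) x b R with hM
  have hu : IsUnit M.det := isUnit_iff_ne_zero.2 hdet
  have hinj : ∀ y z : Port V → ℝ, M.mulVec y = M.mulVec z → y = z := by
    intro y z h
    have h1 := congrArg (M⁻¹).mulVec h
    rwa [Matrix.mulVec_mulVec, Matrix.mulVec_mulVec, Matrix.nonsing_inv_mul M hu,
      Matrix.one_mulVec, Matrix.one_mulVec] at h1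
  have hdn : ∀ v, H.dn true v = H.β.symm (some v) := fun _ => rfl
  have hup : ∀ v, H.up v = H.α (some v) := fun _ => rfl
  have hrb : H.β.symm none = some r := by rw [← hr, Equiv.symm_apply_apply]
  -- the solution
  have hsol : ∀ s t : ℝ, M.mulVec ((M⁻¹).mulVec (rhs H.up (H.dn true) x b R s t)) =
      rhs H.up (H.dn true) x b R s t := by
    intro s t
    rw [Matrix.mulVec_mulVec, Matrix.mul_nonsing_inv M hu, Matrix.one_mulVec]
  obtain ⟨y, hy⟩ : ∃ y : ℝ → ℝ → Port V → ℝ, ∀ s t, M.mulVec (y s t) =
      rhs H.up (H.dn true) x b R s t := ⟨_, hsol⟩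
  -- linearity
  have hlin : ∀ s t, y s t = s • y 1 0 + t • y 0 1 := by
    intro s t
    refine hinj _ _ ?_
    rw [Matrix.mulVec_add, Matrix.mulVec_smul, Matrix.mulVec_smul, hy, hy, hy]
    funext i
    simp only [rhs, Pi.add_apply, Pi.smul_apply, smul_eq_mul]
    rcases H.up i.1 with _ | u <;> rcases H.dn true i.1 with _ | w <;> simp <;> split_ifs <;>
      ring
  have hone : y 1 1 = fun _ => 1 := by
    refine hinj _ _ ?_
    rw [hy]
    funext i
    obtain ⟨v, d⟩ := i
    cases d
    · rw [hM, mul_false]
      simp only [rhs, Bool.false_eq_true, if_false]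
      rcases H.up v with _ | u <;> rcases H.dn true v with _ | w <;> simp [pv]
    · rw [hM, mul_true]
      simp only [rhs, if_true]
      rcases H.up v with _ | u <;> rcases H.dn true v with _ | w <;> simp [pv]
  have hsum : ∀ s t, y s t (wl, true) = s + x * (t - y s t (r, false)) := by
    intro s t
    have h1 : ∀ v, y s t (v, true) + x * y s t (v, false) =
        pv (y s t) true s (H.α (some v)) + x * pv (y s t) false t (H.β.symm (some v)) := by
      intro v
      have h2 := congrFun (hy s t) (v, true)
      rw [hM, mul_true] at h2
      simp only [rhs, if_true] at h2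
      rw [pv_split (y s t) true s, pv_split (y s t) false t, ← hup, ← hdn]
      linarith
    have h3 := Finset.sum_congr (rfl : (Finset.univ : Finset V) = Finset.univ) fun v _ => h1 v
    rw [Finset.sum_add_distrib, Finset.sum_add_distrib, ← Finset.mul_sum, ← Finset.mul_sum,
      sum_pv H.α wl hwl, sum_pv H.β.symm r hrb] at h3
    linarith
  -- the determinant
  have hB : (portMat H.up (H.dn false) x b R).det = M.det * y 1 0 (r, false) := by
    have h1 : portMat H.up (H.dn false) x b R =
        M * (1 + Matrix.replicateCol Unit (fun i => - y 0 1 i) *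
          Matrix.replicateRow Unit (Pi.single (r, false) (1 : ℝ))) := by
      have h2 : M.mulVec (fun i => - y 0 1 i) = fun i => - rhs H.up (H.dn true) x b R 0 1 i := by
        have h3 : (fun i => - y 0 1 i) = - y 0 1 := rfl
        rw [h3, Matrix.mulVec_neg, hy]
        rfl
      rw [mul_add, mul_one, ← Matrix.mul_assoc, ← Matrix.replicateCol_mulVec, h2]
      ext i j
      rw [Matrix.add_apply, Matrix.mul_apply, Finset.univ_unique, Finset.sum_singleton,
        Matrix.replicateCol_apply, Matrix.replicateRow_apply, Pi.single_apply, hM]
      obtain ⟨v, d⟩ := i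
      have key : (H.dn true v = none ∧ H.dn false v = some r) ∨
          ∃ w, H.dn true v = some w ∧ H.dn false v = some w := by
        have h4 : H.dn false v = some ((Equiv.removeNone H.β).symm v) := rfl
        rw [Equiv.removeNone_symm] at h4
        rw [h4, hdn]
        rcases h5 : H.β.symm (some v) with _ | w
        · left
          refine ⟨rfl, ?_⟩
          rw [Equiv.removeNone_none _ h5, hrb]
        · right
          refine ⟨w, rfl, ?_⟩
          rw [Equiv.removeNone_some _ ⟨w, h5⟩, h5]
      have hj : ∀ (j : Port V), (some ((r, false) : Port V) = some j ↔ j = (r, false)) :=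
        fun j => ⟨fun h => (Option.some.inj h).symm, fun h => by rw [h]⟩
      cases d
      · rcases key with ⟨h4, h5⟩ | ⟨w, h4, h5⟩
        · simp only [portMat, rhs, h4, h5, Bool.false_eq_true, if_false, Option.map_some,
            Option.map_none, Option.elim_none, hj]
          rcases H.up v with _ | u
          · simp
            split_ifs <;> ring
          · simp
            split_ifs <;> ring
        · simp only [portMat, rhs, h4, h5, Bool.false_eq_true, if_false, Option.elim_some]
          rcases H.up v with _ | u
          · simp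
          · simp
      · rcases key with ⟨h4, h5⟩ | ⟨w, h4, h5⟩
        · simp only [portMat, rhs, h4, h5, if_true, Option.map_some,
            Option.map_none, Option.elim_none, hj]
          rcases H.up v with _ | u
          · simp
            split_ifs <;> ring
          · simp
            split_ifs <;> ring
        · simp only [portMat, rhs, h4, h5, if_true, Option.elim_some]
          rcases H.up v with _ | u
          · simp
          · simp
    rw [h1, Matrix.det_mul, Matrix.det_one_add_replicateCol_mul_replicateRow]
    congr 1
    rw [single_one_dotProduct]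
    have h2 := congrFun (hlin 1 1) (r, false)
    rw [hone] at h2
    simp only [one_smul, Pi.add_apply] at h2
    linarith
  have hr1 : y s t (r, false) = s * y 1 0 (r, false) + t * (1 - y 1 0 (r, false)) := by
    have h1 := congrFun (hlin s t) (r, false)
    have h2 := congrFun (hlin 1 1) (r, false)
    rw [hone] at h2
    simp only [one_smul, Pi.add_apply, Pi.smul_apply, smul_eq_mul] at h1 h2
    rw [h1]
    have h3 : y 0 1 (r, false) = 1 - y 1 0 (r, false) := by linarith
    rw [h3]
  refine ⟨y s t, portEq_of H.up (H.dn true) x L R b hL s t _ (hy s t), ?_, ?_⟩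
  · rw [hB, hsum, hr1]
    ring
  · rw [hB, hr1]
    ring

end Pool.Agent.Helper81.PG
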